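import Pool.Agent.U388.ITM.Paw

/-!
MP_d0d08e_co: the graphs `H` such that clique-width is bounded on the class of graphs that do not
contain `H` as an induced topological minor are exactly the induced subgraphs of the 4-vertex path,
of the paw and of the diamond.
-/

set_option autoImplicit false

namespace Pool.Agent.Results.MP_d0d08e_co.Classification

open Pool.Agent.U388.ITM Pool.Agent.H175R2

theorem result {W : Type} [Finite W] (H : SimpleGraph W) :
    BddITM H ↔ H.IsIndContained (SimpleGraph.pathGraph 4) ∨ H.IsIndContained paw ∨
      H.IsIndContained diamond :=
  classification H

end Pool.Agent.Results.MP_d0d08e_co.Classification
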